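import Pool.Agent.TH25.IF.Match

/-!
Isomorphic factorisations: transfer, blow-up, adding vertices with a cyclic group action, and the
case in which there are at least as many factors as vertices.
-/

set_option autoImplicit false

namespace Pool.Agent.TH25.IF

open Finset

/-- `G` has an isomorphic factorisation with factors indexed by `C` -/
def Div {V : Type} (G : SimpleGraph V) (C : Type) : Prop :=
  ∃ F : C → SimpleGraph V, (∀ i v w, (F i).Adj v w → G.Adj v w) ∧
    (∀ v w, G.Adj v w → ∃! i, (F i).Adj v w) ∧ ∀ i j, Nonempty (F i ≃g F j)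

theorem Div.of_iso {V W : Type} {G : SimpleGraph V} {G' : SimpleGraph W} {C : Type} (e : G ≃g G')
    (h : Div G C) : Div G' C := by
  obtain ⟨F, h1, h2, h3⟩ := h
  refine ⟨fun i => (F i).comap e.symm, ?_, ?_, ?_⟩
  · intro i v w hvw
    have := h1 i _ _ hvw
    rw [← e.map_adj_iff] at this
    simpa using this
  · intro v w hvw
    refine h2 _ _ ?_
    rw [← e.map_adj_iff]
    simpa using hvw
  · intro i j
    obtain ⟨φ⟩ := h3 i j
    refine ⟨⟨e.symm.toEquiv.trans (φ.toEquiv.trans e.toEquiv), ?_⟩⟩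
    intro v w
    change (F j).Adj (e.symm (e (φ (e.symm v)))) (e.symm (e (φ (e.symm w)))) ↔
      (F i).Adj (e.symm v) (e.symm w)
    rw [RelIso.symm_apply_apply, RelIso.symm_apply_apply]
    exact φ.map_adj_iff

theorem Div.of_equiv {V : Type} {G : SimpleGraph V} {C C' : Type} (e : C ≃ C') (h : Div G C) :
    Div G C' := by
  obtain ⟨F, h1, h2, h3⟩ := h
  refine ⟨fun i => F (e.symm i), fun i => h1 _, ?_, fun i j => h3 _ _⟩
  intro v w hvw
  obtain ⟨i, hi, hu⟩ := h2 v w hvw
  refine ⟨e i, by simpa using hi, ?_⟩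
  intro j hj
  have := hu _ hj
  rw [← this]
  simp

/-- blow-up of every vertex -/
theorem Div.blow {V K : Type} {G : SimpleGraph V} {C : Type} (h : Div G C) :
    Div (G.comap (Prod.fst : V × K → V)) C := by
  obtain ⟨F, h1, h2, h3⟩ := h
  refine ⟨fun i => (F i).comap Prod.fst, fun i v w => h1 i _ _, fun v w => h2 _ _, ?_⟩
  intro i j
  obtain ⟨φ⟩ := h3 i j
  refine ⟨⟨Equiv.prodCongr φ.toEquiv (Equiv.refl K), ?_⟩⟩
  intro v w
  exact φ.map_adj_iff

/-! ### joins -/

/-- `A` and `B` side by side, with all edges between the vertices of `A` and the vertices of `B`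
with property `c` -/
def jn {O Z : Type} (A : SimpleGraph O) (B : SimpleGraph Z) (c : Z → Prop) :
    SimpleGraph (O ⊕ Z) where
  Adj
    | Sum.inl a, Sum.inl b => A.Adj a b
    | Sum.inr x, Sum.inr y => B.Adj x y
    | Sum.inl _, Sum.inr x => c x
    | Sum.inr x, Sum.inl _ => c x
  symm := ⟨by
    rintro (a | x) (b | y) h
    · exact SimpleGraph.Adj.symm (G := A) h
    · exact h
    · exact h
    · exact SimpleGraph.Adj.symm (G := B) h⟩
  loopless := ⟨by
    rintro (a | x) h
    · exact A.loopless.irrefl a h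
    · exact B.loopless.irrefl x h⟩

section jn

variable {O Z : Type} {A : SimpleGraph O} {B : SimpleGraph Z} {c : Z → Prop}

theorem jn_ll {a b : O} : (jn A B c).Adj (Sum.inl a) (Sum.inl b) ↔ A.Adj a b := Iff.rfl
theorem jn_rr {x y : Z} : (jn A B c).Adj (Sum.inr x) (Sum.inr y) ↔ B.Adj x y := Iff.rfl
theorem jn_lr {a : O} {x : Z} : (jn A B c).Adj (Sum.inl a) (Sum.inr x) ↔ c x := Iff.rfl
theorem jn_rl {a : O} {x : Z} : (jn A B c).Adj (Sum.inr x) (Sum.inl a) ↔ c x := Iff.rfl

theorem jn_iso {O' Z' : Type} {A' : SimpleGraph O'} {B' : SimpleGraph Z'} {c' : Z' → Prop}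
    (φ : A ≃g A') (ψ : B ≃g B') (h : ∀ x, c x ↔ c' (ψ x)) : Nonempty (jn A B c ≃g jn A' B' c') := by
  refine ⟨⟨Equiv.sumCongr φ.toEquiv ψ.toEquiv, ?_⟩⟩
  rintro (a | x) (b | y)
  · exact φ.map_adj_iff
  · exact (h y).symm
  · exact (h x).symm
  · exact ψ.map_adj_iff

end jn

/-! ### adding vertices with a cyclic group action -/

section cyc

variable {T t : ℕ} [NeZero T] [NeZero t]

/-- the colour of a pair of new vertices -/
def kap (h : t ∣ T) (x y : ZMod T) : ZMod t :=
  if 2 * (y - x).val < T then ZMod.castHom h (ZMod t) x else ZMod.castHom h (ZMod t) y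

theorem kap_add (h : t ∣ T) (x y a : ZMod T) :
    kap h (x + a) (y + a) = kap h x y + ZMod.castHom h (ZMod t) a := by
  unfold kap
  rw [add_sub_add_right_eq_sub]
  split_ifs <;> rw [map_add]

theorem kap_symm (h : t ∣ T) {x y : ZMod T} (hxy : x ≠ y)
    (hh : 2 * (y - x).val = T → ZMod.castHom h (ZMod t) x = ZMod.castHom h (ZMod t) y) :
    kap h x y = kap h y x := by
  have hne : y - x ≠ 0 := fun he => hxy (sub_eq_zero.1 he).symm
  have hval : (x - y).val = T - (y - x).val := by
    rw [← neg_sub, ZMod.neg_val, if_neg hne]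
  have hlt := ZMod.val_lt (y - x)
  have hpos : 0 < (y - x).val := by
    rw [Nat.pos_iff_ne_zero]
    intro he
    exact hne ((ZMod.val_eq_zero _).1 he)
  unfold kap
  rw [hval]
  rcases lt_trichotomy (2 * (y - x).val) T with h1 | h1 | h1
  · rw [if_pos h1, if_neg (by omega)]
  · rw [if_neg (by omega), if_neg (by omega)]
    exact (hh h1).symm
  · rw [if_neg (by omega), if_pos (by omega)]

/-- the factor on the new vertices -/
def FZ (h : t ∣ T) (B : SimpleGraph (ZMod T)) (i : ZMod t) : SimpleGraph (ZMod T) where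
  Adj x y := B.Adj x y ∧ kap h x y = i ∧ kap h y x = i
  symm := ⟨fun _ _ h => ⟨h.1.symm, h.2.2, h.2.1⟩⟩
  loopless := ⟨fun _ h => h.1.ne rfl⟩

theorem Div.cyc (h : t ∣ T) {O : Type} {A : SimpleGraph O} {B : SimpleGraph (ZMod T)}
    (hB : ∀ a x y, B.Adj (x + a) (y + a) ↔ B.Adj x y)
    (hh : ∀ x y, B.Adj x y → 2 * (y - x).val = T →
      ZMod.castHom h (ZMod t) x = ZMod.castHom h (ZMod t) y)
    (hA : Div A (ZMod t)) : Div (jn A B fun _ => True) (ZMod t) := by
  obtain ⟨F, h1, h2, h3⟩ := hA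
  have hs : ∀ x y, B.Adj x y → kap h x y = kap h y x := fun x y hxy =>
    kap_symm h hxy.ne (hh x y hxy)
  refine ⟨fun i => jn (F i) (FZ h B i) fun x => ZMod.castHom h (ZMod t) x = i, ?_, ?_, ?_⟩
  · rintro i (a | x) (b | y) hvw
    · exact h1 i a b hvw
    · trivial
    · trivial
    · exact hvw.1
  · rintro (a | x) (b | y) hvw
    · exact h2 a b hvw
    · exact ⟨_, rfl, fun j (hj : _ = j) => hj.symm⟩
    · exact ⟨_, rfl, fun j (hj : _ = j) => hj.symm⟩
    · refine ⟨kap h x y, ⟨hvw, rfl, (hs x y hvw).symm⟩, ?_⟩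
      rintro j ⟨_, hj, _⟩
      exact hj.symm
  · intro i j
    obtain ⟨φ⟩ := h3 i j
    obtain ⟨a, ha⟩ := ZMod.ringHom_surjective (ZMod.castHom h (ZMod t)) (j - i)
    have hψ : ∀ x y, (FZ h B j).Adj (x + a) (y + a) ↔ (FZ h B i).Adj x y := by
      intro x y
      change (_ ∧ _ ∧ _) ↔ (_ ∧ _ ∧ _)
      rw [hB, kap_add, kap_add, ha]
      constructor
      · rintro ⟨p, q, r⟩
        refine ⟨p, ?_, ?_⟩
        · linear_combination q
        · linear_combination r
      · rintro ⟨p, q, r⟩
        refine ⟨p, ?_, ?_⟩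
        · linear_combination q
        · linear_combination r
    refine jn_iso φ ⟨Equiv.addRight a, fun {x y} => hψ x y⟩ ?_
    intro x
    change _ ↔ ZMod.castHom h (ZMod t) (x + a) = j
    rw [map_add, ha]
    constructor
    · intro h; linear_combination h
    · intro h; linear_combination h

end cyc

/-! ### many factors -/

open Classical in
/-- if there are at least as many factors as vertices, divisibility suffices -/
theorem Div.many {V : Type} [Fintype V] {G : SimpleGraph V} {t : ℕ} [NeZero t]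
    (hV : Fintype.card V ≤ t) (hd : 2 * t ∣ ∑ v, G.degree v) : Div G (ZMod t) := by
  obtain ⟨m, hm⟩ := hd
  have hcard : Fintype.card V ≤ Fintype.card (ZMod t) := by rwa [ZMod.card]
  obtain ⟨f⟩ := Function.Embedding.nonempty_of_card_le hcard
  have hc0 : Pc G (fun v w => f v + f w) := by
    refine ⟨fun v w => add_comm _ _, fun v w w' _ _ he => f.injective (add_left_cancel he)⟩
  obtain ⟨c, hc, hcm⟩ := equalise (G := G) (fun _ : ZMod t => 0) (fun _ => zero_le_one) m
    (by rw [hm, ZMod.card]; simp; ring) _ _ hc0 le_rfl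
  refine ⟨Mc G c, fun i v w h => h.1, ?_, ?_⟩
  · intro v w hvw
    refine ⟨c v w, (mc_adj hc).2 ⟨hvw, rfl⟩, ?_⟩
    intro j hj
    exact ((mc_adj hc).1 hj).2.symm
  · intro i j
    refine iso_of_card (mat_mc hc i) (mat_mc hc j) ?_
    have h1 := hcm i
    have h2 := hcm j
    omega

end Pool.Agent.TH25.IF
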