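import Pool.Agent.TH25.IF.Star

/-!
Isomorphic factorisations of complete equipartite graphs: the divisibility condition is
sufficient (and necessary).
-/

set_option autoImplicit false

namespace Pool.Agent.TH25.IF

open Finset SimpleGraph

/-! ### complete equipartite graphs from maps -/

theorem equi_iso {V P : Type} [Fintype V] [Fintype P] [DecidableEq P] {r n : ℕ} (p : V → P)
    (hP : Fintype.card P = r) (hf : ∀ x, Fintype.card {v // p v = x} = n) :
    Nonempty (completeEquipartiteGraph r n ≃g (⊤ : SimpleGraph P).comap p) := by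
  let e0 : V ≃ P × Fin n := (Equiv.sigmaFiberEquiv p).symm.trans
    ((Equiv.sigmaCongrRight fun x => Fintype.equivFinOfCardEq (hf x)).trans
      (Equiv.sigmaEquivProd P (Fin n)))
  have he0 : ∀ v, (e0 v).1 = p v := fun v => rfl
  let e : V ≃ Fin r × Fin n := e0.trans
    (Equiv.prodCongr (Fintype.equivFinOfCardEq hP) (Equiv.refl _))
  have he : ∀ v, (e v).1 = Fintype.equivFinOfCardEq hP (p v) := fun v => rfl
  refine ⟨RelIso.symm ⟨e, ?_⟩⟩
  intro v w
  rw [completeEquipartiteGraph_adj, he, he]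
  change _ ↔ p v ≠ p w
  rw [not_iff_not, EmbeddingLike.apply_eq_iff_eq]

theorem jn_equi (ρ σ n : ℕ) :
    Nonempty (jn (completeEquipartiteGraph ρ n) (completeEquipartiteGraph σ n) (fun _ => True) ≃g
      completeEquipartiteGraph (ρ + σ) n) := by
  let e : (Fin ρ × Fin n) ⊕ (Fin σ × Fin n) ≃ Fin (ρ + σ) × Fin n :=
    (Equiv.sumProdDistrib (Fin ρ) (Fin σ) (Fin n)).symm.trans
      (Equiv.prodCongr finSumFinEquiv (Equiv.refl _))
  refine ⟨⟨e, ?_⟩⟩
  rintro (⟨a, a'⟩ | ⟨x, x'⟩) (⟨b, b'⟩ | ⟨y, y'⟩)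
  · rw [completeEquipartiteGraph_adj, jn_ll, completeEquipartiteGraph_adj]
    change finSumFinEquiv (Sum.inl a) ≠ finSumFinEquiv (Sum.inl b) ↔ a ≠ b
    rw [not_iff_not, EmbeddingLike.apply_eq_iff_eq, Sum.inl.injEq]
  · rw [completeEquipartiteGraph_adj, jn_lr]
    change finSumFinEquiv (Sum.inl a) ≠ finSumFinEquiv (Sum.inr y) ↔ True
    rw [Ne, EmbeddingLike.apply_eq_iff_eq]
    simp
  · rw [completeEquipartiteGraph_adj, jn_rl]
    change finSumFinEquiv (Sum.inr x) ≠ finSumFinEquiv (Sum.inl b) ↔ True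
    rw [Ne, EmbeddingLike.apply_eq_iff_eq]
    simp
  · rw [completeEquipartiteGraph_adj, jn_rr, completeEquipartiteGraph_adj]
    change finSumFinEquiv (Sum.inr x) ≠ finSumFinEquiv (Sum.inr y) ↔ x ≠ y
    rw [not_iff_not, EmbeddingLike.apply_eq_iff_eq, Sum.inr.injEq]

/-- the graph on `ZMod T` in which two vertices are adjacent when they differ modulo `σ` -/
def Rg {T σ : ℕ} (h : σ ∣ T) : SimpleGraph (ZMod T) :=
  (⊤ : SimpleGraph (ZMod σ)).comap (ZMod.castHom h (ZMod σ))

theorem rg_adj {T σ : ℕ} (h : σ ∣ T) {x y : ZMod T} :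
    (Rg h).Adj x y ↔ ZMod.castHom h (ZMod σ) x ≠ ZMod.castHom h (ZMod σ) y := Iff.rfl

theorem rg_add {T σ : ℕ} (h : σ ∣ T) (a x y : ZMod T) :
    (Rg h).Adj (x + a) (y + a) ↔ (Rg h).Adj x y := by
  rw [rg_adj, rg_adj, map_add, map_add, not_iff_not, add_left_inj]

theorem rg_iso {T σ n : ℕ} [NeZero T] [NeZero σ] (h : σ ∣ T) (hT : T = n * σ) :
    Nonempty (completeEquipartiteGraph σ n ≃g Rg h) := by
  classical
  refine equi_iso _ (ZMod.card σ) ?_
  have key : ∀ x y : ZMod σ, Fintype.card {v : ZMod T // ZMod.castHom h (ZMod σ) v = x} =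
      Fintype.card {v : ZMod T // ZMod.castHom h (ZMod σ) v = y} := by
    intro x y
    obtain ⟨a, ha⟩ := ZMod.ringHom_surjective (ZMod.castHom h (ZMod σ)) (y - x)
    refine Fintype.card_congr (Equiv.subtypeEquiv (Equiv.addRight a) ?_)
    intro v
    change _ ↔ ZMod.castHom h (ZMod σ) (v + a) = y
    rw [map_add, ha]
    constructor
    · intro h; linear_combination h
    · intro h; linear_combination h
  intro x
  have h1 : Fintype.card (Σ y : ZMod σ, {v : ZMod T // ZMod.castHom h (ZMod σ) v = y}) = T := by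
    rw [Fintype.card_congr (Equiv.sigmaFiberEquiv (ZMod.castHom h (ZMod σ))), ZMod.card]
  rw [Fintype.card_sigma, Finset.sum_congr rfl (fun y _ => key y x), Finset.sum_const,
    Finset.card_univ, ZMod.card, smul_eq_mul] at h1
  have : 0 < σ := Nat.pos_of_ne_zero (NeZero.ne σ)
  rw [mul_comm] at h1
  exact Nat.eq_of_mul_eq_mul_right this (h1.trans hT)

theorem sum_deg (r n : ℕ) [DecidableRel (completeEquipartiteGraph r n).Adj] :
    ∑ v, (completeEquipartiteGraph r n).degree v = 2 * (r.choose 2 * n ^ 2) := by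
  have h1 := @card_edgeFinset_completeEquipartiteGraph r n
  rw [← h1, ← sum_degrees_eq_twice_card_edges]
  refine Finset.sum_congr rfl fun v _ => ?_
  rw [← card_neighborFinset_eq_degree, ← card_neighborFinset_eq_degree]
  congr 1
  ext w
  rw [mem_neighborFinset, mem_neighborFinset]

/-! ### arithmetic -/

theorem two_choose (r : ℕ) : 2 * r.choose 2 + r = r * r := by
  induction r with
  | zero => rfl
  | succ r ih =>
    rw [Nat.choose_succ_succ' r 1, Nat.choose_one_right]
    linarith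

theorem add_choose (a b : ℕ) : (a + b).choose 2 = a.choose 2 + b.choose 2 + a * b := by
  have h1 := two_choose (a + b)
  have h2 := two_choose a
  have h3 := two_choose b
  have h4 : (a + b) * (a + b) = a * a + b * b + 2 * (a * b) := by ring
  omega

/-! ### steps -/

theorem val_two {T : ℕ} [NeZero T] (x : ZMod T) : ((x.val : ℕ) : ZMod T) = x :=
  ZMod.natCast_zmod_val x

theorem cast_val {T σ : ℕ} [NeZero T] (h : σ ∣ T) (x y : ZMod T) :
    ZMod.castHom h (ZMod σ) x = ZMod.castHom h (ZMod σ) y ↔ σ ∣ (y - x).val := by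
  rw [← ZMod.natCast_eq_zero_iff]
  have h1 : ZMod.castHom h (ZMod σ) (y - x) = (((y - x).val : ℕ) : ZMod σ) := by
    conv_lhs => rw [← ZMod.natCast_zmod_val (y - x)]
    rw [map_natCast]
  rw [← h1, map_sub]
  constructor
  · intro h; rw [h, sub_self]
  · intro h; exact (sub_eq_zero.1 h).symm

theorem step_a {n τ ρ : ℕ} (hn : 1 ≤ n) (hτ : 1 ≤ τ) (hpar : Even n ∨ Odd τ)
    (h : Div (completeEquipartiteGraph ρ n) (ZMod (n * τ))) :
    Div (completeEquipartiteGraph (ρ + τ) n) (ZMod (n * τ)) := by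
  have : NeZero (n * τ) := ⟨by positivity⟩
  have : NeZero τ := ⟨by omega⟩
  obtain ⟨e⟩ := jn_equi ρ τ n
  refine Div.of_iso e ?_
  obtain ⟨e1⟩ := rg_iso (T := n * τ) (σ := τ) (dvd_mul_left τ n) rfl
  obtain ⟨e2⟩ := jn_iso (A := completeEquipartiteGraph ρ n) (c := fun _ => True)
    (c' := fun _ => True) (RelIso.refl _) e1 (fun _ => Iff.rfl)
  refine Div.of_iso (RelIso.symm e2) ?_
  refine Div.cyc (dvd_refl _) (rg_add _) ?_ h
  intro x y hxy hv
  exfalso
  apply hxy
  rw [cast_val]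
  have hne : Even n := by
    rcases hpar with hp | hp
    · exact hp
    · have h2 : Even (n * τ) := ⟨_, by rw [← hv, two_mul]⟩
      rw [Nat.even_mul] at h2
      rcases h2 with h2 | h2
      · exact h2
      · exact absurd hp (Nat.not_odd_iff_even.2 h2)
  obtain ⟨k, hk⟩ := hne
  refine ⟨k, ?_⟩
  have : 2 * (y - x).val = 2 * (τ * k) := by rw [hv, hk]; ring
  omega

theorem step_b {n τ ρ : ℕ} (hn : 1 ≤ n) (hτ : 1 ≤ τ)
    (h : Div (completeEquipartiteGraph ρ n) (ZMod (n * τ))) :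
    Div (completeEquipartiteGraph (ρ + 2 * τ) n) (ZMod (n * τ)) := by
  have : NeZero (n * τ) := ⟨by positivity⟩
  have : NeZero (2 * τ) := ⟨by omega⟩
  have : NeZero (n * (2 * τ)) := ⟨by positivity⟩
  obtain ⟨e⟩ := jn_equi ρ (2 * τ) n
  refine Div.of_iso e ?_
  obtain ⟨e1⟩ := rg_iso (T := n * (2 * τ)) (σ := 2 * τ) (dvd_mul_left _ n) rfl
  obtain ⟨e2⟩ := jn_iso (A := completeEquipartiteGraph ρ n) (c := fun _ => True)
    (c' := fun _ => True) (RelIso.refl _) e1 (fun _ => Iff.rfl)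
  refine Div.of_iso (RelIso.symm e2) ?_
  refine Div.cyc (⟨2, by ring⟩) (rg_add _) ?_ h
  intro x y _ hv
  rw [cast_val]
  refine ⟨1, ?_⟩
  have : 2 * (y - x).val = 2 * (n * τ * 1) := by rw [hv]; ring
  omega

theorem step_c {n τ ρ : ℕ} (hn : Odd n) (hτ : Even τ) (h2 : 2 < τ) (h4 : n * τ ≠ 4)
    (hρ : ρ ≤ τ) (hd : 2 * τ ∣ 2 * (n * ρ.choose 2) + τ) :
    Div (completeEquipartiteGraph (ρ + τ) n) (ZMod (n * τ)) := by
  have hn0 : 1 ≤ n := hn.pos
  have : NeZero (n * τ) := ⟨by positivity⟩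
  have : NeZero τ := ⟨by omega⟩
  obtain ⟨e⟩ := jn_equi ρ τ n
  refine Div.of_iso e ?_
  obtain ⟨e1⟩ := rg_iso (T := n * τ) (σ := τ) (dvd_mul_left τ n) rfl
  obtain ⟨e2⟩ := jn_iso (A := completeEquipartiteGraph ρ n) (c := fun _ => True)
    (c' := fun _ => True) (RelIso.refl _) e1 (fun _ => Iff.rfl)
  refine Div.of_iso (RelIso.symm e2) ?_
  obtain ⟨u, hu⟩ := hτ
  obtain ⟨k, hk⟩ := hn
  have hth : n * τ = 2 * (n * u) := by rw [hu]; ring
  have hnu : u ≤ n * u := Nat.le_mul_of_pos_left _ (by omega)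
  have hmod : n * u = τ * k + u := by rw [hk, hu]; ring
  have hadj : ∀ j : ℕ, (Rg (dvd_mul_left τ n)).Adj 0 ((j : ℕ) : ZMod (n * τ)) ↔ ¬ τ ∣ j := by
    intro j
    rw [rg_adj, map_zero, map_natCast, ne_comm, Ne, ZMod.natCast_eq_zero_iff]
  obtain ⟨m, hm⟩ := hd
  refine Div.star (h := n * u) (d0 := 1) (m := m) hth one_pos (by omega) (by omega) (rg_add _)
    ((hadj _).2 ?_) ((hadj _).2 ?_) ((hadj _).2 ?_) ?_ ?_
  · rw [hmod, Nat.dvd_add_right (dvd_mul_right τ k)]
    exact fun hd => by have := Nat.le_of_dvd (by omega) hd; omega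
  · exact fun hd => by have := Nat.le_of_dvd (by omega) hd; omega
  · rw [hmod, add_assoc, Nat.dvd_add_right (dvd_mul_right τ k)]
    exact fun hd => by have := Nat.le_of_dvd (by omega) hd; omega
  · rw [Fintype.card_prod, Fintype.card_fin, Fintype.card_fin, mul_comm]
    exact Nat.mul_le_mul_left n hρ
  · rw [sum_deg]
    calc 2 * (ρ.choose 2 * n ^ 2) + n * τ = n * (2 * (n * ρ.choose 2) + τ) := by ring
      _ = n * τ * (2 * m) := by rw [hm]; ring

theorem step_0 {n τ r : ℕ} (hn : 1 ≤ n) (hτ : 1 ≤ τ) (hr : r ≤ τ) (hd : τ ∣ n * r.choose 2) :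
    Div (completeEquipartiteGraph r n) (ZMod (n * τ)) := by
  classical
  have : NeZero (n * τ) := ⟨by positivity⟩
  refine Div.many ?_ ?_
  · rw [Fintype.card_prod, Fintype.card_fin, Fintype.card_fin, mul_comm]
    exact Nat.mul_le_mul_left n hr
  · rw [sum_deg]
    obtain ⟨m, hm⟩ := hd
    refine ⟨m, ?_⟩
    calc 2 * (r.choose 2 * n ^ 2) = 2 * (n * (n * r.choose 2)) := by ring
      _ = 2 * (n * τ) * m := by rw [hm]; ring

theorem main1 (n τ : ℕ) (hn : 1 ≤ n) (hτ : 1 ≤ τ) (r : ℕ) (h : τ ∣ n * r.choose 2) :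
    Div (completeEquipartiteGraph r n) (ZMod (n * τ)) := by
  induction r using Nat.strong_induction_on with
  | _ r ih =>
    by_cases hr : r ≤ τ
    · exact step_0 hn hτ hr h
    push Not at hr
    by_cases hpar : Even n ∨ Odd τ
    · obtain ⟨ρ, rfl⟩ : ∃ ρ, r = ρ + τ := ⟨r - τ, by omega⟩
      refine step_a hn hτ hpar (ih ρ (by omega) ?_)
      rw [add_choose, mul_add, mul_add] at h
      have h1 : τ ∣ n * (ρ * τ) := ⟨n * ρ, by ring⟩
      have h2 : τ ∣ n * τ.choose 2 := by
        have h3 := two_choose τ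
        rcases hpar with ⟨k, hk⟩ | ⟨k, hk⟩
        · have h4 : τ ∣ k * (2 * τ.choose 2 + τ) := by
            rw [h3]
            exact ⟨k * τ, by ring⟩
          have h5 : n * τ.choose 2 + k * τ = k * (2 * τ.choose 2 + τ) := by rw [hk]; ring
          rw [← h5] at h4
          exact (Nat.dvd_add_left ⟨k, by ring⟩).1 h4
        · refine Dvd.dvd.mul_left ?_ n
          refine ⟨k, ?_⟩
          have : 2 * τ.choose 2 + τ = 2 * (τ * k) + τ := by rw [h3]; nth_rewrite 2 [hk]; ring
          omega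
      exact (Nat.dvd_add_left h2).1 ((Nat.dvd_add_left h1).1 h)
    · push Not at hpar
      obtain ⟨hn', hτ'⟩ := hpar
      rw [Nat.not_even_iff_odd] at hn'
      rw [Nat.not_odd_iff_even] at hτ'
      by_cases hr2 : 2 * τ ≤ r
      · obtain ⟨ρ, rfl⟩ : ∃ ρ, r = ρ + 2 * τ := ⟨r - 2 * τ, by omega⟩
        refine step_b hn hτ (ih ρ (by omega) ?_)
        rw [add_choose, mul_add, mul_add] at h
        have h1 : τ ∣ n * (ρ * (2 * τ)) := ⟨n * ρ * 2, by ring⟩
        have h2 : τ ∣ n * (2 * τ).choose 2 := by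
          refine Dvd.dvd.mul_left ?_ n
          have h3 := two_choose (2 * τ)
          obtain ⟨k, hk⟩ : ∃ k, k + 1 = 2 * τ := ⟨2 * τ - 1, by omega⟩
          refine ⟨k, ?_⟩
          have h4 : 2 * τ * (2 * τ) = 2 * (τ * k) + 2 * τ := by
            nth_rewrite 2 [← hk]; ring
          omega
        exact (Nat.dvd_add_left h2).1 ((Nat.dvd_add_left h1).1 h)
      · push Not at hr2
        obtain ⟨ρ, rfl⟩ : ∃ ρ, r = ρ + τ := ⟨r - τ, by omega⟩
        have hd : 2 * τ ∣ 2 * (n * ρ.choose 2) + τ := by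
          obtain ⟨m, hm⟩ := h
          obtain ⟨u, hu⟩ := hτ'
          obtain ⟨k, hk⟩ := hn'
          have h3 := two_choose τ
          rw [add_choose] at hm
          -- 2 n C(ρ,2) + n (τ² - τ) + 2 n ρ τ = 2 τ m
          have h5 : 2 * (n * ρ.choose 2) + n * (2 * τ.choose 2) + 2 * (n * ρ * τ) = 2 * (τ * m) := by
            rw [← hm]; ring
          have h6 : 2 * (n * ρ.choose 2) + τ + 2 * τ * (n * u) + 2 * τ * (n * ρ) =
              2 * τ * (m + k + 1) := by
            have h7 : n * (2 * τ.choose 2) + n * τ = n * (τ * τ) := by rw [← h3]; ring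
            have h8 : n * (τ * τ) = 2 * τ * (n * u) := by nth_rewrite 2 [hu]; ring
            have h9 : n * τ = 2 * τ * k + τ := by rw [hk]; ring
            have h10 : 2 * τ * (m + k + 1) = 2 * (τ * m) + 2 * τ * k + 2 * τ := by ring
            have h11 : 2 * τ * (n * ρ) = 2 * (n * ρ * τ) := by ring
            rw [h10, h11]
            omega
          have h12 : 2 * τ ∣ 2 * (n * ρ.choose 2) + τ + 2 * τ * (n * u) + 2 * τ * (n * ρ) :=
            ⟨_, h6⟩
          exact (Nat.dvd_add_left (dvd_mul_right _ _)).1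
            ((Nat.dvd_add_left (dvd_mul_right _ _)).1 h12)
        refine step_c hn' hτ' ?_ ?_ (by omega) hd
        · by_contra hcon
          have h2 : τ = 2 := by
            obtain ⟨u, hu⟩ := hτ'
            omega
          subst h2
          obtain rfl : ρ = 1 := by omega
          obtain ⟨k, hk⟩ := hn'
          obtain ⟨m, hm⟩ := h
          have : (1 + 2).choose 2 = 3 := rfl
          rw [this] at hm
          omega
        · intro h4
          have hn1 : n = 1 := by
            have : n ∣ 4 := ⟨τ, h4.symm⟩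
            have h5 := Nat.le_of_dvd (by norm_num) this
            obtain ⟨k, hk⟩ := hn'
            interval_cases n <;> omega
          subst hn1
          obtain rfl : τ = 4 := by omega
          have : ρ ≤ 3 := by omega
          interval_cases ρ <;> revert h <;> decide

/-! ### the general case -/

theorem blow_iso (r s ν : ℕ) :
    Nonempty ((completeEquipartiteGraph r s).comap (Prod.fst : (Fin r × Fin s) × Fin ν → _) ≃g
      completeEquipartiteGraph r (s * ν)) := by
  refine ⟨⟨(Equiv.prodAssoc _ _ _).trans (Equiv.prodCongr (Equiv.refl _) finProdFinEquiv), ?_⟩⟩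
  intro v w
  exact Iff.rfl

theorem main2 (r n t : ℕ) (hn : 1 ≤ n) (ht : 1 ≤ t) (h : t ∣ n ^ 2 * r.choose 2) :
    Div (completeEquipartiteGraph r n) (ZMod t) := by
  obtain ⟨s, τ, ν, hs, hcop, ht', hn'⟩ : ∃ s τ ν : ℕ, 0 < s ∧ Nat.Coprime τ ν ∧ t = s * τ ∧
      n = s * ν := by
    refine ⟨Nat.gcd t n, t / Nat.gcd t n, n / Nat.gcd t n, Nat.gcd_pos_of_pos_left _ ht,
      Nat.coprime_div_gcd_div_gcd (Nat.gcd_pos_of_pos_left _ ht), ?_, ?_⟩
    · rw [Nat.mul_div_cancel' (Nat.gcd_dvd_left t n)]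
    · rw [Nat.mul_div_cancel' (Nat.gcd_dvd_right t n)]
  subst ht' hn'
  have hτ : 1 ≤ τ := Nat.pos_of_ne_zero (by rintro rfl; omega)
  have h1 : τ ∣ s * r.choose 2 := by
    have h2 : s * τ ∣ s * (ν ^ 2 * (s * r.choose 2)) := by
      have : (s * ν) ^ 2 * r.choose 2 = s * (ν ^ 2 * (s * r.choose 2)) := by ring
      rwa [this] at h
    exact (Nat.Coprime.pow_right 2 hcop).dvd_of_dvd_mul_left (Nat.dvd_of_mul_dvd_mul_left hs h2)
  obtain ⟨e⟩ := blow_iso r s ν
  exact Div.of_iso e (Div.blow (main1 s τ hs hτ r h1))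

theorem div_dvd {V C : Type} [Fintype V] [Fintype C] {G : SimpleGraph V}
    [DecidableRel G.Adj] (h : Div G C) : Fintype.card C ∣ G.edgeFinset.card := by
  classical
  obtain ⟨F, h1, h2, h3⟩ := h
  have h4 : G.edgeFinset = Finset.univ.biUnion fun i => (F i).edgeFinset := by
    ext e
    rw [Finset.mem_biUnion]
    induction e using Sym2.ind with
    | _ v w =>
      simp only [mem_edgeFinset, mem_edgeSet, Finset.mem_univ, true_and]
      exact ⟨fun hvw => (h2 v w hvw).exists, fun ⟨i, hi⟩ => h1 i v w hi⟩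
  have h5 : ∀ i j, (F i).edgeFinset.card = (F j).edgeFinset.card := by
    intro i j
    obtain ⟨φ⟩ := h3 i j
    exact φ.card_edgeFinset_eq
  rw [h4, Finset.card_biUnion]
  · rcases isEmpty_or_nonempty C with hC | ⟨⟨j⟩⟩
    · rw [Finset.univ_eq_empty, Finset.sum_empty]
      exact dvd_zero _
    · rw [Finset.sum_congr rfl fun i _ => h5 i j, Finset.sum_const, Finset.card_univ, smul_eq_mul]
      exact dvd_mul_right _ _
  · intro i _ j _ hij
    rw [Function.onFun, Finset.disjoint_left]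
    intro e
    induction e using Sym2.ind with
    | _ v w =>
      rw [mem_edgeFinset, mem_edgeFinset, mem_edgeSet, mem_edgeSet]
      intro h5 h6
      exact hij ((h2 v w (h1 i v w h5)).unique h5 h6)

theorem main3 (r n t : ℕ) (hn : 1 ≤ n) (ht : 1 ≤ t) :
    t ∣ n ^ 2 * r.choose 2 ↔ Div (completeEquipartiteGraph r n) (Fin t) := by
  constructor
  · intro h
    have : NeZero t := ⟨by omega⟩
    exact Div.of_equiv (ZMod.finEquiv t).symm.toEquiv (main2 r n t hn ht h)
  · intro h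
    have h1 := div_dvd h
    rw [Fintype.card_fin, card_edgeFinset_completeEquipartiteGraph] at h1
    rwa [mul_comm]

end Pool.Agent.TH25.IF
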