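import Mathlib

/-!
Matchings: two matchings of the same size on the same finite vertex set are isomorphic graphs, and
every properly edge coloured graph has an equalised proper edge colouring, also with weights zero
or one on the colours.
-/

set_option autoImplicit false

namespace Pool.Agent.TH25.IF

open Finset

/-! ### matchings of the same size are isomorphic -/

section matching

variable {V : Type} [Fintype V] [DecidableEq V]

/-- every vertex has at most one neighbour -/
def Mat (A : SimpleGraph V) : Prop := ∀ v w w', A.Adj v w → A.Adj v w' → w = w'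

open Classical in
/-- the partner of a vertex in a matching -/
noncomputable def prt (A : SimpleGraph V) (v : V) : V := if h : ∃ w, A.Adj v w then h.choose else v

theorem prt_of_adj {A : SimpleGraph V} (hA : Mat A) {v w : V} (h : A.Adj v w) : prt A v = w := by
  have hex : ∃ w, A.Adj v w := ⟨w, h⟩
  unfold prt
  rw [dif_pos hex]
  exact hA _ _ _ hex.choose_spec h

theorem prt_of_not {A : SimpleGraph V} {v : V} (h : ¬ ∃ w, A.Adj v w) : prt A v = v := by
  unfold prt
  rw [dif_neg h]

theorem adj_iff_prt {A : SimpleGraph V} (hA : Mat A) {v w : V} :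
    A.Adj v w ↔ prt A v = w ∧ v ≠ w := by
  constructor
  · intro h
    exact ⟨prt_of_adj hA h, h.ne⟩
  · rintro ⟨h, hne⟩
    by_cases hex : ∃ u, A.Adj v u
    · obtain ⟨u, hu⟩ := hex
      rw [prt_of_adj hA hu] at h
      rw [← h]; exact hu
    · rw [prt_of_not hex] at h
      exact absurd h hne

theorem prt_invol {A : SimpleGraph V} (hA : Mat A) : Function.Involutive (prt A) := by
  intro v
  by_cases hex : ∃ u, A.Adj v u
  · obtain ⟨u, hu⟩ := hex
    rw [prt_of_adj hA hu, prt_of_adj hA hu.symm]
  · rw [prt_of_not hex, prt_of_not hex]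

/-- the partner map as a permutation -/
noncomputable def prm {A : SimpleGraph V} (hA : Mat A) : Equiv.Perm V :=
  Function.Involutive.toPerm (prt A) (prt_invol hA)

theorem prm_apply {A : SimpleGraph V} (hA : Mat A) (v : V) : prm hA v = prt A v := rfl

open Classical in
/-- covered vertices -/
noncomputable def cv (A : SimpleGraph V) : Finset V := univ.filter fun v => ∃ w, A.Adj v w

theorem mem_cv {A : SimpleGraph V} {v : V} : v ∈ cv A ↔ ∃ w, A.Adj v w := by
  classical
  unfold cv
  simp

theorem support_prm {A : SimpleGraph V} (hA : Mat A) : (prm hA).support = cv A := by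
  ext v
  rw [Equiv.Perm.mem_support, mem_cv, prm_apply]
  constructor
  · intro h
    by_contra hex
    exact h (prt_of_not hex)
  · rintro ⟨w, hw⟩
    rw [prt_of_adj hA hw]
    exact hw.ne.symm

theorem cycleType_prm {A : SimpleGraph V} (hA : Mat A) :
    ∃ k, (prm hA).cycleType = Multiset.replicate k 2 ∧ 2 * k = (cv A).card := by
  have h2 : (prm hA) ^ 2 = 1 := by
    ext v
    rw [pow_two, Equiv.Perm.mul_apply, prm_apply, prm_apply, prt_invol hA v]
    rfl
  have hall : ∀ n ∈ (prm hA).cycleType, n = 2 := by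
    intro n hn
    have h3 := Equiv.Perm.dvd_of_mem_cycleType hn
    have h4 := Equiv.Perm.two_le_of_mem_cycleType hn
    have h5 : n ∣ 2 := h3.trans (orderOf_dvd_of_pow_eq_one h2)
    have h6 := Nat.le_of_dvd (by norm_num) h5
    omega
  have h7 := Multiset.eq_replicate_of_mem hall
  refine ⟨_, h7, ?_⟩
  have h8 := Equiv.Perm.sum_cycleType (prm hA)
  rw [support_prm, h7, Multiset.sum_replicate] at h8
  rw [← h8]
  simp [mul_comm]

theorem iso_of_card {A B : SimpleGraph V} (hA : Mat A) (hB : Mat B)
    (h : (cv A).card = (cv B).card) : Nonempty (A ≃g B) := by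
  obtain ⟨k, hk, hk2⟩ := cycleType_prm hA
  obtain ⟨l, hl, hl2⟩ := cycleType_prm hB
  have hkl : k = l := by omega
  subst hkl
  have hc : IsConj (prm hA) (prm hB) := by
    rw [Equiv.Perm.isConj_iff_cycleType_eq, hk, hl]
  obtain ⟨π, hπ⟩ := isConj_iff.1 hc
  refine ⟨⟨π, ?_⟩⟩
  intro v w
  have key : prm hB (π v) = π (prm hA v) := by
    rw [← hπ]
    simp
  rw [adj_iff_prt hA, adj_iff_prt hB, ← prm_apply hB, ← prm_apply hA, key]
  rw [π.injective.eq_iff, π.injective.ne_iff]

end matching

/-! ### proper colourings -/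

section colouring

variable {V C : Type} [Fintype V] [DecidableEq V] [Fintype C] [DecidableEq C]

/-- the colour class of `i` -/
def Mc (G : SimpleGraph V) (c : V → V → C) (i : C) : SimpleGraph V where
  Adj v w := G.Adj v w ∧ c v w = i ∧ c w v = i
  symm := ⟨fun _ _ h => ⟨h.1.symm, h.2.2, h.2.1⟩⟩
  loopless := ⟨fun _ h => h.1.ne rfl⟩

/-- proper edge colourings -/
def Pc (G : SimpleGraph V) (c : V → V → C) : Prop :=
  (∀ v w, c v w = c w v) ∧ ∀ v w w', G.Adj v w → G.Adj v w' → c v w = c v w' → w = w'

theorem mat_mc {G : SimpleGraph V} {c : V → V → C} (h : Pc G c) (i : C) : Mat (Mc G c i) := by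
  intro v w w' hw hw'
  exact h.2 v w w' hw.1 hw'.1 (hw.2.1.trans hw'.2.1.symm)

theorem mc_adj {G : SimpleGraph V} {c : V → V → C} (h : Pc G c) {i : C} {v w : V} :
    (Mc G c i).Adj v w ↔ G.Adj v w ∧ c v w = i := by
  constructor
  · intro h'
    exact ⟨h'.1, h'.2.1⟩
  · intro h'
    exact ⟨h'.1, h'.2, (h.1 w v).trans h'.2⟩

theorem mem_cv_mc {G : SimpleGraph V} {c : V → V → C} (h : Pc G c) {i : C} {v : V} :
    v ∈ cv (Mc G c i) ↔ ∃ w, G.Adj v w ∧ c v w = i := by
  rw [mem_cv]
  exact exists_congr fun w => mc_adj h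

open Classical in
/-- each vertex is covered by as many colours as it has neighbours -/
theorem sum_cv {G : SimpleGraph V} {c : V → V → C} (h : Pc G c) :
    ∑ i, (cv (Mc G c i)).card = ∑ v, G.degree v := by
  have h1 : ∀ i, (cv (Mc G c i)).card = ∑ v, if v ∈ cv (Mc G c i) then 1 else 0 := by
    intro i
    simp
  simp_rw [h1]
  rw [Finset.sum_comm]
  refine Finset.sum_congr rfl fun v _ => ?_
  rw [← Finset.card_filter]
  have h2 : (univ.filter fun i => v ∈ cv (Mc G c i)) = (G.neighborFinset v).image (c v) := by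
    ext i
    simp only [Finset.mem_filter, Finset.mem_univ, true_and, Finset.mem_image,
      SimpleGraph.mem_neighborFinset]
    exact mem_cv_mc h
  rw [h2, Finset.card_image_of_injOn, SimpleGraph.card_neighborFinset_eq_degree]
  intro w hw w' hw' he
  simp only [Finset.mem_coe, SimpleGraph.mem_neighborFinset] at hw hw'
  exact h.2 v w w' hw hw' he

open Classical in
/-- on a component of two colour classes the two colours nearly balance -/
theorem comp_bal {G : SimpleGraph V} {c : V → V → C} (h : Pc G c) (i j : C)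
    (K : (Mc G c i ⊔ Mc G c j).ConnectedComponent) :
    ((cv (Mc G c i)).filter (· ∈ K.supp)).card ≤
      ((cv (Mc G c j)).filter (· ∈ K.supp)).card + 2 := by
  have hconn := K.connected_toSimpleGraph
  have h1 := hconn.card_vert_le_card_edgeSet_add_one
  have h2 : Nat.card K = (univ.filter (· ∈ K.supp)).card := by
    rw [Nat.card_eq_fintype_card]
    exact Fintype.card_of_subtype _ (fun x => by
      rw [Finset.mem_filter]
      exact ⟨fun h => h.2, fun h => ⟨Finset.mem_univ _, h⟩⟩)
  have h3 : Nat.card K.toSimpleGraph.edgeSet = K.toSimpleGraph.edgeFinset.card := by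
    rw [Nat.card_eq_fintype_card, SimpleGraph.edgeFinset_card]
  have h4 := K.toSimpleGraph.sum_degrees_eq_twice_card_edges
  have h5 : ∀ v : K, K.toSimpleGraph.degree v ≤
      (if (v : V) ∈ cv (Mc G c i) then 1 else 0) + (if (v : V) ∈ cv (Mc G c j) then 1 else 0) := by
    intro v
    rw [← SimpleGraph.card_neighborFinset_eq_degree]
    have h6 : (K.toSimpleGraph.neighborFinset v).card ≤
        (univ.filter fun w => (Mc G c i).Adj (v : V) w).card +
          (univ.filter fun w => (Mc G c j).Adj (v : V) w).card := by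
      rw [← Finset.card_map (Function.Embedding.subtype (· ∈ K))]
      refine (Finset.card_le_card ?_).trans (Finset.card_union_le _ _)
      intro w hw
      rw [Finset.mem_map] at hw
      obtain ⟨w', hw', rfl⟩ := hw
      rw [SimpleGraph.mem_neighborFinset] at hw'
      have h7 : (Mc G c i ⊔ Mc G c j).Adj (v : V) (w' : V) := hw'
      rw [Finset.mem_union, Finset.mem_filter, Finset.mem_filter]
      rcases h7 with h8 | h8
      · exact Or.inl ⟨Finset.mem_univ _, h8⟩
      · exact Or.inr ⟨Finset.mem_univ _, h8⟩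
    have h7 : ∀ k : C, (univ.filter fun w => (Mc G c k).Adj (v : V) w).card ≤
        if (v : V) ∈ cv (Mc G c k) then 1 else 0 := by
      intro k
      split_ifs with hk
      · rw [Finset.card_le_one]
        intro a ha b hb
        rw [Finset.mem_filter] at ha hb
        exact mat_mc h k _ _ _ ha.2 hb.2
      · rw [Nat.le_zero, Finset.card_eq_zero, Finset.filter_eq_empty_iff]
        intro w _ hw
        exact hk (mem_cv.2 ⟨w, hw⟩)
    exact h6.trans (add_le_add (h7 i) (h7 j))
  have h8 : ∀ k : C, ∑ v : K, (if (v : V) ∈ cv (Mc G c k) then 1 else 0) =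
      ((cv (Mc G c k)).filter (· ∈ K.supp)).card := by
    intro k
    rw [Finset.sum_boole]
    rw [← Finset.card_map (Function.Embedding.subtype (· ∈ K))]
    simp only [Nat.cast_id]
    congr 1
    ext w
    simp only [Finset.mem_map, Finset.mem_filter, Finset.mem_univ, true_and,
      Function.Embedding.coe_subtype, Subtype.exists, exists_and_right, exists_eq_right]
    constructor
    · rintro ⟨ha, hb⟩
      exact ⟨hb, ha⟩
    · rintro ⟨ha, hb⟩
      exact ⟨hb, ha⟩
  have h9 : ∑ v, K.toSimpleGraph.degree v ≤ ((cv (Mc G c i)).filter (· ∈ K.supp)).card +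
      ((cv (Mc G c j)).filter (· ∈ K.supp)).card := by
    rw [← h8 i, ← h8 j, ← Finset.sum_add_distrib]
    exact Finset.sum_le_sum fun v _ => h5 v
  have h10 : ((cv (Mc G c i)).filter (· ∈ K.supp)).card ≤ (univ.filter (· ∈ K.supp)).card :=
    Finset.card_le_card (Finset.filter_subset_filter _ (Finset.subset_univ _))
  omega

open Classical in
/-- the coloring after swapping two colours on a component -/
noncomputable def sc (c : V → V → C) (i j : C) (K : Set V) (v w : V) : C :=
  if v ∈ K ∧ w ∈ K then Equiv.swap i j (c v w) else c v w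

open Classical in
theorem sc_apply {G : SimpleGraph V} {c : V → V → C} (h : Pc G c) (i j : C)
    (K : (Mc G c i ⊔ Mc G c j).ConnectedComponent) {v w : V} (hvw : G.Adj v w) :
    sc c i j K.supp v w = if v ∈ K.supp then Equiv.swap i j (c v w) else c v w := by
  unfold sc
  by_cases hv : v ∈ K.supp
  · by_cases hw : w ∈ K.supp
    · rw [if_pos ⟨hv, hw⟩, if_pos hv]
    · rw [if_neg (fun h' => hw h'.2), if_pos hv]
      have hne : c v w ≠ i ∧ c v w ≠ j := by
        constructor
        · intro he
          have : (Mc G c i ⊔ Mc G c j).Adj v w := Or.inl ((mc_adj h).2 ⟨hvw, he⟩)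
          exact hw ((SimpleGraph.ConnectedComponent.mem_supp_congr_adj K this).1 hv)
        · intro he
          have : (Mc G c i ⊔ Mc G c j).Adj v w := Or.inr ((mc_adj h).2 ⟨hvw, he⟩)
          exact hw ((SimpleGraph.ConnectedComponent.mem_supp_congr_adj K this).1 hv)
      rw [Equiv.swap_apply_of_ne_of_ne hne.1 hne.2]
  · rw [if_neg (fun h' => hv h'.1), if_neg hv]

theorem pc_sc {G : SimpleGraph V} {c : V → V → C} (h : Pc G c) (i j : C)
    (K : (Mc G c i ⊔ Mc G c j).ConnectedComponent) : Pc G (sc c i j K.supp) := by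
  classical
  constructor
  · intro v w
    unfold sc
    rw [h.1 v w]
    by_cases hv : v ∈ K.supp <;> by_cases hw : w ∈ K.supp <;> simp [hv, hw]
  · intro v w w' hw hw' he
    rw [sc_apply h i j K hw, sc_apply h i j K hw'] at he
    refine h.2 v w w' hw hw' ?_
    by_cases hv : v ∈ K.supp
    · rw [if_pos hv, if_pos hv] at he
      exact (Equiv.swap i j).injective he
    · rw [if_neg hv, if_neg hv] at he
      exact he

open Classical in
theorem cv_sc {G : SimpleGraph V} {c : V → V → C} (h : Pc G c) (i j : C)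
    (K : (Mc G c i ⊔ Mc G c j).ConnectedComponent) (k : C) :
    (cv (Mc G (sc c i j K.supp) k)).card +
      ((cv (Mc G c k)).filter (· ∈ K.supp)).card =
      (cv (Mc G c k)).card + ((cv (Mc G c (Equiv.swap i j k))).filter (· ∈ K.supp)).card := by
  have h1 : cv (Mc G (sc c i j K.supp) k) =
      (cv (Mc G c k)).filter (¬ · ∈ K.supp) ∪
        (cv (Mc G c (Equiv.swap i j k))).filter (· ∈ K.supp) := by
    ext v
    rw [Finset.mem_union, Finset.mem_filter, Finset.mem_filter, mem_cv_mc (pc_sc h i j K),
      mem_cv_mc h, mem_cv_mc h]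
    by_cases hv : v ∈ K.supp
    · constructor
      · rintro ⟨w, hw, he⟩
        rw [sc_apply h i j K hw, if_pos hv] at he
        refine Or.inr ⟨⟨w, hw, ?_⟩, hv⟩
        rw [← he, Equiv.swap_apply_self]
      · rintro (⟨_, h2⟩ | ⟨⟨w, hw, he⟩, _⟩)
        · exact absurd hv h2
        · refine ⟨w, hw, ?_⟩
          rw [sc_apply h i j K hw, if_pos hv, he, Equiv.swap_apply_self]
    · constructor
      · rintro ⟨w, hw, he⟩
        rw [sc_apply h i j K hw, if_neg hv] at he
        exact Or.inl ⟨⟨w, hw, he⟩, hv⟩
      · rintro (⟨⟨w, hw, he⟩, _⟩ | ⟨_, h2⟩)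
        · refine ⟨w, hw, ?_⟩
          rw [sc_apply h i j K hw, if_neg hv, he]
        · exact absurd h2 hv
  rw [h1, Finset.card_union_of_disjoint, ← Finset.card_filter_add_card_filter_not
    (s := cv (Mc G c k)) (fun v => v ∈ K.supp)]
  · ring
  · rw [Finset.disjoint_left]
    intro v hv hv'
    rw [Finset.mem_filter] at hv hv'
    exact hv.2 hv'.2

theorem even_cv {G : SimpleGraph V} {c : V → V → C} (h : Pc G c) (i : C) :
    ∃ k, (cv (Mc G c i)).card = 2 * k := by
  obtain ⟨k, _, hk⟩ := cycleType_prm (mat_mc h i)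
  exact ⟨k, hk.symm⟩

open Classical in
/-- **Equalised colourings.** -/
theorem equalise {G : SimpleGraph V} (w : C → ℕ) (hw : ∀ i, w i ≤ 1) (m : ℕ)
    (hm : ∑ v, G.degree v + 2 * ∑ i, w i = Fintype.card C * (2 * m)) :
    ∀ (N : ℕ) (c : V → V → C), Pc G c →
      ∑ i, ((cv (Mc G c i)).card + 2 * w i) ^ 2 ≤ N →
      ∃ c', Pc G c' ∧ ∀ i, (cv (Mc G c' i)).card + 2 * w i = 2 * m := by
  intro N
  induction N with
  | zero =>
    intro c hc hN
    have h0 : ∀ i, (cv (Mc G c i)).card + 2 * w i = 0 := by
      intro i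
      have := (Finset.sum_eq_zero_iff.1 (Nat.le_zero.1 hN)) i (Finset.mem_univ i)
      exact pow_eq_zero_iff (two_ne_zero) |>.1 this
    have hs : ∑ i, ((cv (Mc G c i)).card + 2 * w i) = Fintype.card C * (2 * m) := by
      rw [Finset.sum_add_distrib, sum_cv hc, ← Finset.mul_sum]
      exact hm
    rw [Finset.sum_eq_zero (fun i _ => h0 i)] at hs
    refine ⟨c, hc, fun i => ?_⟩
    rw [h0 i]
    rcases Nat.mul_eq_zero.1 hs.symm with h1 | h1
    · rw [Fintype.card_eq_zero_iff] at h1
      exact (h1.false i).elim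
    · exact h1.symm
  | succ N ih =>
    intro c hc hN
    by_cases hall : ∀ i, (cv (Mc G c i)).card + 2 * w i = 2 * m
    · exact ⟨c, hc, hall⟩
    have hs : ∑ i, ((cv (Mc G c i)).card + 2 * w i) = ∑ _i : C, 2 * m := by
      rw [Finset.sum_add_distrib, sum_cv hc, ← Finset.mul_sum, Finset.sum_const, smul_eq_mul]
      exact hm
    obtain ⟨i, hi⟩ : ∃ i, 2 * m < (cv (Mc G c i)).card + 2 * w i := by
      by_contra hcon
      push Not at hcon
      exact hall fun i => (Finset.sum_eq_sum_iff_of_le (fun i _ => hcon i)).1 hs i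
        (Finset.mem_univ i)
    obtain ⟨j, hj⟩ : ∃ j, (cv (Mc G c j)).card + 2 * w j < 2 * m := by
      by_contra hcon
      push Not at hcon
      exact hall fun i => ((Finset.sum_eq_sum_iff_of_le (fun i _ => hcon i)).1 hs.symm i
        (Finset.mem_univ i)).symm
    obtain ⟨a, ha⟩ := even_cv hc i
    obtain ⟨b, hb⟩ := even_cv hc j
    have hwi := hw i
    have hwj := hw j
    have hij : i ≠ j := by
      rintro rfl
      omega
    have hgt : (cv (Mc G c j)).card < (cv (Mc G c i)).card := by omega
    -- a component in which `i` is more frequent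
    obtain ⟨K, hK⟩ : ∃ K : (Mc G c i ⊔ Mc G c j).ConnectedComponent,
        ((cv (Mc G c j)).filter (· ∈ K.supp)).card < ((cv (Mc G c i)).filter (· ∈ K.supp)).card := by
      by_contra hcon
      push Not at hcon
      have key : ∀ k : C, (cv (Mc G c k)).card =
          ∑ K : (Mc G c i ⊔ Mc G c j).ConnectedComponent,
            ((cv (Mc G c k)).filter (· ∈ K.supp)).card := by
        intro k
        rw [Finset.card_eq_sum_card_fiberwise
          (f := fun v => (Mc G c i ⊔ Mc G c j).connectedComponentMk v) (t := Finset.univ)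
          (fun _ _ => Finset.mem_coe.2 (Finset.mem_univ _))]
        refine Finset.sum_congr rfl fun K _ => ?_
        congr 1
        ext v
        simp only [Finset.mem_filter, SimpleGraph.ConnectedComponent.mem_supp_iff]
      have := Finset.sum_le_sum (s := Finset.univ) fun K _ => hcon K
      rw [← key i, ← key j] at this
      omega
    have hbal := comp_bal hc i j K
    refine ih (sc c i j K.supp) (pc_sc hc i j K) ?_
    refine Nat.lt_succ_iff.1 (lt_of_lt_of_le ?_ hN)
    -- the potential decreases
    have h1 := cv_sc hc i j K i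
    have h2 := cv_sc hc i j K j
    rw [Equiv.swap_apply_left] at h1
    rw [Equiv.swap_apply_right] at h2
    have h3 : ∀ k, k ≠ i → k ≠ j →
        (cv (Mc G (sc c i j K.supp) k)).card = (cv (Mc G c k)).card := by
      intro k hki hkj
      have := cv_sc hc i j K k
      rw [Equiv.swap_apply_of_ne_of_ne hki hkj] at this
      omega
    rw [← Finset.add_sum_erase _ _ (Finset.mem_univ i),
      ← Finset.add_sum_erase _ _ (Finset.mem_erase.2 ⟨hij.symm, Finset.mem_univ j⟩)]
    rw [← Finset.add_sum_erase Finset.univ (fun k => ((cv (Mc G c k)).card + 2 * w k) ^ 2)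
      (Finset.mem_univ i),
      ← Finset.add_sum_erase (Finset.univ.erase i) (fun k => ((cv (Mc G c k)).card + 2 * w k) ^ 2)
        (Finset.mem_erase.2 ⟨hij.symm, Finset.mem_univ j⟩)]
    have h4 : ∑ k ∈ (Finset.univ.erase i).erase j,
        ((cv (Mc G (sc c i j K.supp) k)).card + 2 * w k) ^ 2 =
        ∑ k ∈ (Finset.univ.erase i).erase j, ((cv (Mc G c k)).card + 2 * w k) ^ 2 := by
      refine Finset.sum_congr rfl fun k hk => ?_
      rw [Finset.mem_erase, Finset.mem_erase] at hk
      rw [h3 k hk.2.1 hk.1]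
    rw [h4, ← add_assoc, ← add_assoc]
    refine Nat.add_lt_add_right ?_ _
    generalize (cv (Mc G (sc c i j K.supp) i)).card = x' at *
    generalize (cv (Mc G (sc c i j K.supp) j)).card = y' at *
    generalize (cv (Mc G c i)).card = x at *
    generalize (cv (Mc G c j)).card = y at *
    generalize ((cv (Mc G c i)).filter (· ∈ K.supp)).card = p at *
    generalize ((cv (Mc G c j)).filter (· ∈ K.supp)).card = q at *
    generalize w i = u at *
    generalize w j = z at *
    obtain ⟨δ, rfl⟩ : ∃ δ, p = q + δ := ⟨p - q, by omega⟩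
    have e1 : x' + δ = x := by omega
    have e2 : y' = y + δ := by omega
    have e3 : 0 < δ := by omega
    have e4 : δ ≤ 2 := by omega
    have e5 : y + 2 * z + 4 ≤ x + 2 * u := by omega
    subst e2
    have e6 : y + 2 * z + 4 ≤ x' + δ + 2 * u := by omega
    rw [← e1]
    nlinarith

end colouring

end Pool.Agent.TH25.IF
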